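import Mathlib
import Pool.Agent.V11182.GEq.Basic

/-!
# `G`-equivalence does not preserve selective (sequential) pseudocompactness

We answer Q1 and Q2 in the negative.

* For every zero-dimensional Hausdorff topological group `G` (for instance every discrete group)
  the Cantor set is `G`-equivalent to a metrizable space which has an unbounded continuous
  real-valued function, namely the graph of a Bernstein-type function from the Cantor set to `ℝ`:
  the clopen subsets of the graph are the preimages of the clopen subsets of the Cantor set.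
* For every Hausdorff topological group `H` and `G = H ^ ω`, the one-point space is
  `G`-equivalent to the countable discrete space.

In both cases all the groups of continuous functions are dense in the full powers.
-/

set_option autoImplicit false

namespace Pool.Agent.Results.MP_c4a8f9_gt.NotPreserved

open Set Topology Filter TopologicalSpace Pool.Agent.V11182.GEq

universe u

/-- The group `C_p(X, G)` of all continuous maps `X → G`, as a subgroup of the product `G ^ X`
(with the product topology). -/
def Cp (X : Type) (G : Type u) [TopologicalSpace X] [Group G] [TopologicalSpace G]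
    [IsTopologicalGroup G] : Subgroup (X → G) where
  carrier := {f | Continuous f}
  mul_mem' := fun hf hg => Continuous.mul hf hg
  one_mem' := continuous_const
  inv_mem' := fun hf => Continuous.inv hf

/-- `X` is selectively sequentially pseudocompact: for all nonempty open sets `U 0, U 1, ...` there
are points `x n ∈ U n` such that the sequence `x` has a convergent subsequence. -/
def SelSeqPseudocompact (X : Type) [TopologicalSpace X] : Prop :=
  ∀ U : ℕ → Set X, (∀ n, IsOpen (U n) ∧ (U n).Nonempty) →
    ∃ x : ℕ → X, (∀ n, x n ∈ U n) ∧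
      ∃ (φ : ℕ → ℕ) (a : X), StrictMono φ ∧ Tendsto (x ∘ φ) atTop (𝓝 a)

/-- `X` is selectively pseudocompact: for all pairwise disjoint nonempty open sets
`U 0, U 1, ...` there are points `x n ∈ U n` such that `{x 0, x 1, ...}` is not closed. -/
def SelPseudocompact (X : Type) [TopologicalSpace X] : Prop :=
  ∀ U : ℕ → Set X, (∀ n, IsOpen (U n) ∧ (U n).Nonempty) →
    (∀ m n, m ≠ n → Disjoint (U m) (U n)) →
    ∃ x : ℕ → X, (∀ n, x n ∈ U n) ∧ ¬ IsClosed (range x)

/-- The spaces `X` and `Y` are Tychonoff, `G`-equivalent, `C_p(X, G)` is dense in `G ^ X` and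
`C_p(Y, G)` is dense in `G ^ Y`; moreover `X` has both properties (selective sequential
pseudocompactness and selective pseudocompactness), and `Y` has neither. -/
structure Counterexample (G : Type u) [Group G] [TopologicalSpace G] [IsTopologicalGroup G]
    (X Y : Type) [TopologicalSpace X] [TopologicalSpace Y] : Prop where
  tychonoff_left : T35Space X
  tychonoff_right : T35Space Y
  equivalent : Nonempty (Cp X G ≃ₜ* Cp Y G)
  dense_left : Dense (Cp X G : Set (X → G))
  dense_right : Dense (Cp Y G : Set (Y → G))
  selSeq_left : SelSeqPseudocompact X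
  sel_left : SelPseudocompact X
  not_selSeq_right : ¬ SelSeqPseudocompact Y
  not_sel_right : ¬ SelPseudocompact Y

theorem selSeq_of_compact (X : Type) [TopologicalSpace X] [CompactSpace X]
    [FirstCountableTopology X] : SelSeqPseudocompact X := by
  intro U hU
  choose x hx using fun n => (hU n).2
  obtain ⟨a, φ, h1, h2⟩ := CompactSpace.tendsto_subseq x
  exact ⟨x, hx, φ, a, h1, h2⟩

theorem sel_of_compact (X : Type) [TopologicalSpace X] [CompactSpace X]
    [FirstCountableTopology X] : SelPseudocompact X := by
  intro U hU hd
  choose x hx using fun n => (hU n).2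
  obtain ⟨a, φ, h1, h2⟩ := CompactSpace.tendsto_subseq x
  refine ⟨x, hx, fun hcl => ?_⟩
  have ha : a ∈ range x := hcl.mem_of_tendsto h2 (Eventually.of_forall fun k => ⟨φ k, rfl⟩)
  obtain ⟨m, rfl⟩ := ha
  have h3 : ∀ᶠ k in atTop, x (φ k) ∈ U m := h2 ((hU m).1.mem_nhds (hx m))
  obtain ⟨k, hk⟩ := h3.exists_forall_of_atTop
  have h4 : ∀ j, k ≤ j → φ j = m := by
    intro j hj
    by_contra hne
    exact Set.disjoint_left.1 (hd _ _ hne) (hx (φ j)) (hk j hj)
  have h5 := h1 (Nat.lt_succ_self k)
  rw [h4 k le_rfl, h4 (k + 1) (Nat.le_succ k)] at h5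
  exact absurd h5 (lt_irrefl _)

section unbounded

variable {Y : Type} [TopologicalSpace Y] (F : Y → ℝ) (hF : Continuous F)
  (hex : ∀ n : ℕ, ∃ y, (n : ℝ) < F y ∧ F y < n + 1)

include hF hex

theorem not_selSeq_of_unbounded : ¬ SelSeqPseudocompact Y := by
  intro h
  obtain ⟨x, hx, φ, a, h1, h2⟩ := h (fun n => {y | (n : ℝ) < F y ∧ F y < n + 1})
    (fun n => ⟨(isOpen_lt continuous_const hF).inter (isOpen_lt hF continuous_const), hex n⟩)
  have h3 : Tendsto (fun k => F (x (φ k))) atTop (𝓝 (F a)) := (hF.tendsto a).comp h2
  have h4 : Tendsto (fun k => F (x (φ k))) atTop atTop := by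
    refine tendsto_atTop_mono (fun k => ?_) (tendsto_natCast_atTop_atTop.comp h1.tendsto_atTop)
    exact (hx (φ k)).1.le
  exact not_tendsto_nhds_of_tendsto_atTop h4 _ h3

theorem not_sel_of_unbounded [T1Space Y] : ¬ SelPseudocompact Y := by
  intro h
  obtain ⟨x, hx, hcl⟩ := h (fun n => {y | (n : ℝ) < F y ∧ F y < n + 1})
    (fun n => ⟨(isOpen_lt continuous_const hF).inter (isOpen_lt hF continuous_const), hex n⟩)
    (by
      intro m n hmn
      rw [Set.disjoint_left]
      rintro y ⟨h1, h2⟩ ⟨h3, h4⟩
      apply hmn
      have h5 : (m : ℝ) < n + 1 := h1.trans h4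
      have h6 : (n : ℝ) < m + 1 := h3.trans h2
      have h7 : m < n + 1 := by exact_mod_cast h5
      have h8 : n < m + 1 := by exact_mod_cast h6
      omega)
  apply hcl
  rw [← iUnion_singleton_eq_range]
  refine LocallyFinite.isClosed_iUnion ?_ (fun n => isClosed_singleton)
  intro y
  refine ⟨{z | F z < F y + 1}, (isOpen_lt hF continuous_const).mem_nhds (by simp), ?_⟩
  obtain ⟨N, hN⟩ := exists_nat_gt (F y + 1)
  refine (Set.finite_lt_nat N).subset ?_
  rintro n ⟨z, hz1, hz2⟩
  rw [mem_singleton_iff] at hz1
  subst hz1
  have h1 : (n : ℝ) < F (x n) := (hx n).1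
  have h2 : F (x n) < F y + 1 := hz2
  have h3 : (n : ℝ) < N := by linarith
  exact_mod_cast h3

end unbounded

section zerodim

variable {G : Type u} [Group G] [TopologicalSpace G] [IsTopologicalGroup G]

theorem dense_of_interpolate {X : Type} [TopologicalSpace X]
    (H : ∀ (I : Finset X) (g : X → G), ∃ f : X → G, Continuous f ∧ ∀ x ∈ I, f x = g x) :
    Dense (Cp X G : Set (X → G)) := by
  intro g
  rw [mem_closure_iff]
  intro O hO hg
  obtain ⟨I, u, h1, h2⟩ := isOpen_pi_iff.1 hO g hg
  obtain ⟨f, hf1, hf2⟩ := H I g
  refine ⟨f, h2 fun i hi => ?_, hf1⟩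
  rw [hf2 i hi]
  exact (h1 i hi).2

theorem dense_cantor : Dense (Cp K G : Set (K → G)) := by
  have : Inhabited G := ⟨1⟩
  exact dense_of_interpolate fun I g => interpolate I g

theorem dense_graph' (h : K → ℝ) : Dense (Cp (Gr h) G : Set (Gr h → G)) := by
  classical
  have : Inhabited G := ⟨1⟩
  refine dense_of_interpolate fun I g => ?_
  obtain ⟨f, hf1, hf2⟩ := interpolate (I.image fun q : Gr h => q.1.1) (fun x => g (e h x))
  refine ⟨fun q => f q.1.1, hf1.comp (by fun_prop), fun q hq => ?_⟩
  have h1 : f q.1.1 = g (e h q.1.1) := hf2 q.1.1 (Finset.mem_image_of_mem _ hq)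
  rw [eq_e] at h1
  exact h1

/-- The isomorphism for the graph. -/
noncomputable def isoGraph (hG : IsTopologicalBasis {s : Set G | IsClopen s}) (h : K → ℝ)
    (hh : ∀ F : Set (K × ℝ), IsClosed F → Cardinal.mk (Prod.fst '' F) = Cardinal.continuum →
      ∃ x, (x, h x) ∈ F) : Cp K G ≃ₜ* Cp (Gr h) G where
  toFun f := ⟨fun q => f.1 q.1.1, Continuous.comp f.2 (by fun_prop)⟩
  invFun g := ⟨fun x => g.1 (e h x), continuous_comp_e hh hG g.2⟩
  left_inv f := rfl
  right_inv g := by
    refine Subtype.ext (funext fun q => ?_)
    simp only
    rw [eq_e]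
  map_mul' f g := rfl
  continuous_toFun := by
    refine Continuous.subtype_mk (continuous_pi fun q => ?_) _
    exact (continuous_apply _).comp continuous_subtype_val
  continuous_invFun := by
    refine Continuous.subtype_mk (continuous_pi fun q => ?_) _
    exact (continuous_apply _).comp continuous_subtype_val

end zerodim

section power

variable {H : Type u} [Group H] [TopologicalSpace H] [IsTopologicalGroup H]

/-- The isomorphism for the one-point space and the discrete space `ℕ`. -/
def isoPower : Cp Unit (ℕ → H) ≃ₜ* Cp ℕ (ℕ → H) where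
  toFun f := ⟨fun m k => f.1 () (Nat.pair m k), continuous_of_discreteTopology⟩
  invFun g := ⟨fun _ n => g.1 (Nat.unpair n).1 (Nat.unpair n).2, continuous_of_discreteTopology⟩
  left_inv f := by
    refine Subtype.ext (funext fun _ => funext fun n => ?_)
    simp
  right_inv g := by
    refine Subtype.ext (funext fun m => funext fun k => ?_)
    simp
  map_mul' f g := rfl
  continuous_toFun := by
    refine Continuous.subtype_mk (continuous_pi fun m => continuous_pi fun k => ?_) _
    exact (continuous_apply _).comp ((continuous_apply _).comp continuous_subtype_val)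
  continuous_invFun := by
    refine Continuous.subtype_mk (continuous_pi fun m => continuous_pi fun k => ?_) _
    exact (continuous_apply _).comp ((continuous_apply _).comp continuous_subtype_val)

theorem dense_discrete (X : Type) [TopologicalSpace X] [DiscreteTopology X] :
    Dense (Cp X H : Set (X → H)) :=
  dense_of_interpolate fun _ g => ⟨g, continuous_of_discreteTopology, fun _ _ => rfl⟩

end power

/-- **Main theorem.** (1) For every topological group `G` with a base of clopen sets the Cantor set
`ℕ → Bool` and some metrizable space `Y` form a counterexample. (2) For every topological group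
`H` and `G = H ^ ω`, the one-point space and the discrete space `ℕ` form a counterexample. -/
theorem result :
    (∃ (Y : Type) (_ : TopologicalSpace Y), MetrizableSpace Y ∧
      (∃ F : Y → ℝ, Continuous F ∧ Function.Surjective F) ∧
      ∀ (G : Type u) [Group G] [TopologicalSpace G] [IsTopologicalGroup G] [T2Space G],
        IsTopologicalBasis {s : Set G | IsClopen s} → Counterexample G (ℕ → Bool) Y) ∧
    (∀ (H : Type u) [Group H] [TopologicalSpace H] [IsTopologicalGroup H] [T2Space H],
      Counterexample (ℕ → H) Unit ℕ) := by
  constructor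
  · obtain ⟨h, hh⟩ := exists_fun
    have hcont : Continuous fun q : Gr h => q.1.2 := by fun_prop
    have hsurj : Function.Surjective fun q : Gr h => q.1.2 := fun r => exists_height hh r
    have hex : ∀ n : ℕ, ∃ y : Gr h, (n : ℝ) < y.1.2 ∧ y.1.2 < n + 1 := by
      intro n
      obtain ⟨q, hq⟩ := hsurj ((n : ℝ) + 1 / 2)
      simp only at hq
      exact ⟨q, by rw [hq]; linarith, by rw [hq]; linarith⟩
    have hsc : SecondCountableTopology (Gr h) :=
      (IsEmbedding.subtypeVal (p := fun q : K × ℝ => q.2 = h q.1)).secondCountableTopology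
    have hm : MetrizableSpace (Gr h) := metrizableSpace_of_t3_secondCountable _
    refine ⟨Gr h, inferInstance, hm, ⟨_, hcont, hsurj⟩, ?_⟩
    intro G _ _ _ _ hG
    exact
      { tychonoff_left := inferInstance
        tychonoff_right := inferInstance
        equivalent := ⟨isoGraph hG h hh⟩
        dense_left := dense_cantor
        dense_right := dense_graph' h
        selSeq_left := selSeq_of_compact _
        sel_left := sel_of_compact _
        not_selSeq_right := not_selSeq_of_unbounded _ hcont hex
        not_sel_right := not_sel_of_unbounded _ hcont hex }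
  · intro H _ _ _ _
    have hex : ∀ n : ℕ, ∃ y : ℕ, (n : ℝ) < (y : ℝ) + 1 / 2 ∧ (y : ℝ) + 1 / 2 < n + 1 :=
      fun n => ⟨n, by linarith, by linarith⟩
    have hcont : Continuous fun y : ℕ => (y : ℝ) + 1 / 2 := continuous_of_discreteTopology
    exact
      { tychonoff_left := inferInstance
        tychonoff_right := inferInstance
        equivalent := ⟨isoPower⟩
        dense_left := dense_discrete _
        dense_right := dense_discrete _
        selSeq_left := selSeq_of_compact _
        sel_left := sel_of_compact _
        not_selSeq_right := not_selSeq_of_unbounded _ hcont hex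
        not_sel_right := not_sel_of_unbounded _ hcont hex }

end Pool.Agent.Results.MP_c4a8f9_gt.NotPreserved
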